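import Pool.Agent.Q27.SCT.Rep

/-!
# Almost prescribed local actions: groups fixing a vertex
-/

set_option autoImplicit false

namespace Q27.LB

open Pool.Agent.Y110.FJ
open Pool.Agent.Y462.SS (Closed Wr)
open Q30.FJ

/-- the quotient by `M` is in `C` -/
def Qot (C : ∀ (G : Type) [Group G], Prop) {G : Type} [Group G] (M : Subgroup G) : Prop :=
  ∃ (Q : Type) (_ : Group Q) (π : G →* Q), C Q ∧ ∀ x, π x = 1 ↔ x ∈ M

/-- finitary monomial kernels -/
theorem qot_step {C : ∀ (G : Type) [Group G], Prop} (hC : ClosedE C) {G : Type} [Group G]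
    {M M' : Subgroup G} [M.Normal] (hle : M ≤ M') (hM' : Qot C M') (X H : Type) [Group H]
    (hH : C H) (ρ : G →* Wr X H) (h1 : ∀ g ∈ M, ρ g = 1) (h2 : ∀ g ∈ M', ρ g = 1 → g ∈ M)
    (h3 : ∀ g ∈ M', (wsupp (ρ g)).Finite) : Qot C M := by
  obtain ⟨Q, _, π, hQ, h⟩ := hM'
  refine ⟨G ⧸ M, inferInstance, QuotientGroup.mk' M, ?_, fun x => QuotientGroup.eq_one_iff x⟩
  have hRle : ∀ x ∈ M, π x = 1 := fun x hx => (h x).2 (hle hx)
  obtain ⟨π', hπ'⟩ : ∃ π' : (G ⧸ M) →* Q, π' = QuotientGroup.lift M π hRle := ⟨_, rfl⟩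
  have hπx : ∀ x : G, π' (x : G ⧸ M) = π x := by
    intro x
    rw [hπ']
    rfl
  obtain ⟨ρ', hρ'⟩ : ∃ ρ' : (G ⧸ M) →* Wr X H, ρ' = QuotientGroup.lift M ρ h1 := ⟨_, rfl⟩
  have hρx : ∀ x : G, ρ' (x : G ⧸ M) = ρ x := by
    intro x
    rw [hρ']
    rfl
  refine mono_kernel hC X H hH (G ⧸ M) π'.ker ?_ ρ' ?_ ?_
  · exact hC.base.of_injective _ Q (QuotientGroup.kerLift π') (QuotientGroup.kerLift_injective π') hQ
  · intro g hg hg1
    induction g using QuotientGroup.induction_on with
    | H x =>
      rw [MonoidHom.mem_ker, hπx] at hg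
      rw [hρx] at hg1
      exact (QuotientGroup.eq_one_iff x).2 (h2 _ ((h x).1 hg) hg1)
  · intro g hg
    induction g using QuotientGroup.induction_on with
    | H x =>
      rw [MonoidHom.mem_ker, hπx] at hg
      rw [hρx]
      exact h3 _ ((h x).1 hg)

section tree

variable {V : Type} {T : SimpleGraph V}

/-- predecessors -/
theorem exists_pred (hT : T.IsTree) (v x : V) (n : ℕ) (h : T.dist v x = n + 1) :
    ∃ y, T.Adj y x ∧ T.dist v y = n := by
  obtain ⟨p, hp⟩ := hT.connected.exists_walk_length_eq_dist v x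
  have hn : ¬ p.Nil := by
    intro hn
    have h1 := SimpleGraph.Walk.length_eq_zero_iff.2 hn
    omega
  refine ⟨p.penultimate, p.adj_penultimate hn, ?_⟩
  have h1 : T.dist v p.penultimate ≤ n := by
    have h2 := SimpleGraph.dist_le p.dropLast
    have h3 : p.dropLast.length + 1 = p.length := SimpleGraph.Walk.length_dropLast_add_one hn
    omega
  have h4 : T.dist v x ≤ T.dist v p.penultimate + T.dist p.penultimate x :=
    hT.connected.dist_triangle
  have h5 : T.dist p.penultimate x = 1 := SimpleGraph.dist_eq_one_iff_adj.2 (p.adj_penultimate hn)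
  omega

variable {G : Type} [Group G] [MulAction G V]

theorem dist_smul_le (hT : T.IsTree)
    (hadj : ∀ (g : G) (v w : V), T.Adj v w → T.Adj (g • v) (g • w)) (g : G) (v w : V) :
    T.dist (g • v) (g • w) ≤ T.dist v w := by
  obtain ⟨p, hp⟩ := hT.connected.exists_walk_length_eq_dist v w
  let f : T →g T := ⟨fun v => g • v, fun {a b} hab => hadj g a b hab⟩
  have h1 := SimpleGraph.dist_le (p.map f)
  rw [SimpleGraph.Walk.length_map, hp] at h1
  exact h1

theorem dist_smul (hT : T.IsTree)
    (hadj : ∀ (g : G) (v w : V), T.Adj v w → T.Adj (g • v) (g • w)) (g : G) (v w : V) :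
    T.dist (g • v) (g • w) = T.dist v w := by
  apply le_antisymm (dist_smul_le hT hadj g v w)
  have h1 := dist_smul_le hT hadj g⁻¹ (g • v) (g • w)
  rwa [inv_smul_smul, inv_smul_smul] at h1

/-- `g` is trivial on the star of `u` -/
def StTriv (T : SimpleGraph V) (g : G) (u : V) : Prop := g • u = u ∧ ∀ w, T.Adj u w → g • w = w

/-- the vertices on whose star `g` does not agree with an element of `G₀` -/
def Sing (G₀ : Type) {G V : Type} [Group G₀] [MulAction G₀ V] [Group G] [MulAction G V]
    (T : SimpleGraph V) (g : G) : Set V :=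
  {u | ¬ ∃ g₀ : G₀, g₀ • u = g • u ∧ ∀ w, T.Adj u w → g₀ • w = g • w}

variable {G₀ : Type} [Group G₀] [MulAction G₀ V]

theorem sing_mul (hadj₀ : ∀ (g : G₀) (v w : V), T.Adj v w → T.Adj (g • v) (g • w)) (g h : G) (u : V)
    (h1 : u ∉ Sing G₀ T h) (h2 : h • u ∉ Sing G₀ T g) : u ∉ Sing G₀ T (g * h) := by
  unfold Sing at *
  rw [Set.mem_ofPred_eq, not_not] at *
  obtain ⟨a, ha1, ha2⟩ := h1
  obtain ⟨b, hb1, hb2⟩ := h2
  refine ⟨b * a, ?_, fun w hw => ?_⟩
  · rw [mul_smul, mul_smul, ha1, hb1]
  · rw [mul_smul, mul_smul, ha2 w hw]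
    apply hb2
    rw [← ha1, ← ha2 w hw]
    exact hadj₀ a u w hw

theorem sing_one : Sing G₀ T (1 : G) = ∅ := by
  ext u
  unfold Sing
  rw [Set.mem_ofPred_eq]
  simp only [Set.mem_empty_iff_false, iff_false, not_not]
  exact ⟨1, by rw [one_smul, one_smul], fun w _ => by rw [one_smul, one_smul]⟩

theorem sing_inv (hadj : ∀ (g : G) (v w : V), T.Adj v w → T.Adj (g • v) (g • w)) (g : G) (u : V)
    (h1 : g⁻¹ • u ∉ Sing G₀ T g) : u ∉ Sing G₀ T g⁻¹ := by
  unfold Sing at *
  rw [Set.mem_ofPred_eq, not_not] at *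
  obtain ⟨a, ha1, ha2⟩ := h1
  refine ⟨a⁻¹, ?_, fun w hw => ?_⟩
  · rw [inv_smul_eq_iff, ha1, smul_inv_smul]
  · rw [inv_smul_eq_iff, ha2 (g⁻¹ • w) (hadj g⁻¹ u w hw), smul_inv_smul]

/-- an element of `G₀` that fixes an edge is trivial, so elements that fix an edge are trivial on the
star of a regular end point -/
theorem triv_of_reg (hG₀ : ∀ (g : G₀) (u w : V), T.Adj u w → g • u = u → g • w = w →
    ∀ x : V, g • x = x) (g : G) (u w : V) (h : T.Adj u w) (hu : g • u = u) (hw : g • w = w)
    (hs : u ∉ Sing G₀ T g) : StTriv T g u := by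
  unfold Sing at hs
  rw [Set.mem_ofPred_eq, not_not] at hs
  obtain ⟨a, ha1, ha2⟩ := hs
  have h1 := hG₀ a u w h (by rw [ha1, hu]) (by rw [ha2 w h, hw])
  exact ⟨hu, fun x hx => by rw [← ha2 x hx, h1]⟩

/-- the elements that fix the ball of radius `n` -/
def NB (G : Type) {V : Type} [Group G] [MulAction G V] (T : SimpleGraph V) (v : V) (n : ℕ) :
    Subgroup G where
  carrier := {g | ∀ x, T.dist v x ≤ n → g • x = x}
  one_mem' := fun x _ => one_smul G x
  mul_mem' {a b} ha hb x hx := by rw [mul_smul, hb x hx, ha x hx]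
  inv_mem' {a} ha x hx := by rw [inv_smul_eq_iff, ha x hx]

theorem NB_normal (hT : T.IsTree)
    (hadj : ∀ (g : G) (v w : V), T.Adj v w → T.Adj (g • v) (g • w)) (v : V)
    (hv : ∀ g : G, g • v = v) (n : ℕ) : (NB G T v n).Normal := by
  constructor
  intro a ha b x hx
  have h1 : T.dist v (b⁻¹ • x) ≤ n := by
    have h2 := dist_smul hT hadj b⁻¹ v x
    rw [hv] at h2
    rw [h2]
    exact hx
  rw [mul_smul, mul_smul, ha _ h1, smul_inv_smul]

/-- an element which is trivial on a ball outside which it is regular is trivial -/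
theorem triv_of_ball (hT : T.IsTree)
    (hG₀ : ∀ (g : G₀) (u w : V), T.Adj u w → g • u = u → g • w = w → ∀ x : V, g • x = x)
    (v : V) (n : ℕ) (g : G) (hg : g ∈ NB G T v (n + 1))
    (hs : ∀ u ∈ Sing G₀ T g, T.dist v u ≤ n) : ∀ x : V, g • x = x := by
  have key : ∀ (m : ℕ) (x : V), T.dist v x = m → g • x = x := by
    intro m
    induction m using Nat.strong_induction_on with
    | _ m ih =>
      intro x hx
      by_cases hm : m ≤ n + 1
      · exact hg x (by omega)
      · obtain ⟨k, rfl⟩ : ∃ k, m = k + 2 := ⟨m - 2, by omega⟩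
        obtain ⟨y, hy1, hy2⟩ := exists_pred hT v x (k + 1) hx
        obtain ⟨z, hz1, hz2⟩ := exists_pred hT v y k hy2
        have hys : y ∉ Sing G₀ T g := fun h => by
          have := hs y h
          omega
        have h1 := triv_of_reg hG₀ g y z hz1.symm (ih (k + 1) (by omega) y hy2)
          (ih k (by omega) z hz2) hys
        exact h1.2 x hy1
  exact fun x => key _ x rfl

/-- **groups fixing a vertex** -/
theorem fix_mem {C : ∀ (G : Type) [Group G], Prop} (hC : ClosedE C) (hT : T.IsTree)
    (hadj : ∀ (g : G) (v w : V), T.Adj v w → T.Adj (g • v) (g • w))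
    (hadj₀ : ∀ (g : G₀) (v w : V), T.Adj v w → T.Adj (g • v) (g • w))
    (hG₀ : ∀ (g : G₀) (u w : V), T.Adj u w → g • u = u → g • w = w → ∀ x : V, g • x = x)
    (hfaith : ∀ g : G, (∀ x : V, g • x = x) → g = 1) (hsing : ∀ g : G, (Sing G₀ T g).Finite)
    (hloc : ∀ u : V, ∃ (Q : Type) (_ : Group Q) (φ : MulAction.stabilizer G u →* Q), C Q ∧
      ∀ p : MulAction.stabilizer G u, φ p = 1 ↔ ∀ w, T.Adj u w → (p : G) • w = w)
    (v : V) (hv : ∀ g : G, g • v = v) : C G := by
  classical
  have hdist : ∀ (g : G) (x : V), T.dist v (g • x) = T.dist v x := by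
    intro g x
    have h2 := dist_smul hT hadj g v x
    rwa [hv] at h2
  have hnor := NB_normal hT hadj v hv
  have hQ : ∀ n, Qot C (NB G T v n) := by
    intro n
    induction n with
    | zero =>
      refine ⟨Multiplicative ℤ, inferInstance, 1, hC.base.int, fun g => ⟨fun _ x hx => ?_,
        fun _ => rfl⟩⟩
      have h1 : v = x := (hT.connected.preconnected v x).dist_eq_zero_iff.1 (Nat.le_zero.1 hx)
      rw [← h1, hv]
    | succ n ih =>
      let Y := {u : V // T.dist v u = n}
      let act : MulAction G Y :=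
        { smul := fun g x => ⟨g • (x : V), by rw [hdist, x.2]⟩
          one_smul := fun x => Subtype.ext (one_smul G (x : V))
          mul_smul := fun g h x => Subtype.ext (mul_smul g h (x : V)) }
      have hsm : ∀ (g : G) (x : Y), ((g • x : Y) : V) = g • (x : V) := fun g x => rfl
      obtain ⟨H, _, ρ, hH, hρp, hρs⟩ := Q27.SCT.mono_rep (P := G) hC.base Y
        (fun x g => StTriv T g (x : V)) (by
          rintro x g h ⟨h1, h2⟩
          refine ⟨?_, fun w hw => ?_⟩
          · show (h * g * h⁻¹) • h • (x : V) = h • (x : V)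
            rw [mul_smul, mul_smul, inv_smul_smul, h1]
          · have h3 := hadj h⁻¹ _ _ hw
            have h4 : T.Adj (x : V) (h⁻¹ • w) := by
              rw [hsm, inv_smul_smul] at h3
              exact h3
            rw [mul_smul, mul_smul, h2 _ h4, smul_inv_smul]) (by
          intro x
          obtain ⟨Q, _, φ, hQ, hφ⟩ := hloc x
          have hle : MulAction.stabilizer G x ≤ MulAction.stabilizer G (x : V) := by
            intro g hg
            have h1 := MulAction.mem_stabilizer_iff.1 hg
            exact MulAction.mem_stabilizer_iff.2 (congrArg Subtype.val h1)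
          refine ⟨Q, inferInstance, φ.comp (Subgroup.inclusion hle), hQ, fun g => ?_⟩
          have h1 := hφ (Subgroup.inclusion hle g)
          refine h1.trans ⟨fun h => ⟨?_, h⟩, fun h => h.2⟩
          exact congrArg Subtype.val (MulAction.mem_stabilizer_iff.1 g.2))
      have htriv : ∀ (g : G) (x : Y), x ∈ wsupp (ρ g) ↔ ¬ StTriv T g (x : V) := by
        intro g x
        constructor
        · rintro hx h1
          have h2 : g • x = x := Subtype.ext h1.1
          rcases hx with h3 | h3
          · exact h3 ((hρs g x h2).2 h1)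
          · exact h3 (by rw [hρp, h2])
        · intro h1
          by_contra hx
          obtain ⟨h3, h4⟩ := not_wsupp hx
          rw [hρp] at h4
          exact h1 ((hρs g x h4).1 h3)
      refine qot_step hC (M' := NB G T v n) (fun g hg x hx => hg x (by omega)) ih Y H hH ρ ?_ ?_ ?_
      · intro g hg
        have h1 : ∀ x : Y, x ∉ wsupp (ρ g) := by
          intro x hx
          refine (htriv g x).1 hx ⟨hg x (by rw [x.2]; omega), fun w hw => hg w ?_⟩
          have h2 : T.dist v w ≤ T.dist v x + T.dist (x : V) w := hT.connected.dist_triangle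
          have h3 : T.dist (x : V) w = 1 := SimpleGraph.dist_eq_one_iff_adj.2 hw
          rw [x.2, h3] at h2
          exact h2
        apply Wr.ext
        · funext x
          exact (not_wsupp (h1 x)).1
        · ext x
          rw [(not_wsupp (h1 x)).2]
          rfl
      · intro g hg hg1 x hx
        by_cases hx1 : T.dist v x ≤ n
        · exact hg x hx1
        · obtain ⟨y, hy1, hy2⟩ := exists_pred hT v x n (by omega)
          by_contra h2
          have h3 : (⟨y, hy2⟩ : Y) ∈ wsupp (ρ g) := (htriv g _).2 fun h => h2 (h.2 x hy1)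
          rw [hg1, wsupp_one] at h3
          exact h3
      · intro g hg
        rcases Nat.eq_zero_or_pos n with hn | hn
        · have hY : Subsingleton Y := by
            constructor
            rintro ⟨x, hx⟩ ⟨y, hy⟩
            have h1 : v = x := (hT.connected.preconnected v x).dist_eq_zero_iff.1 (by omega)
            have h2 : v = y := (hT.connected.preconnected v y).dist_eq_zero_iff.1 (by omega)
            exact Subtype.ext (h1.symm.trans h2)
          exact Set.toFinite _
        · refine ((hsing g).preimage (f := ((↑) : Y → V)) Subtype.val_injective.injOn).subset ?_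
          intro x hx
          by_contra hxs
          obtain ⟨k, rfl⟩ : ∃ k, n = k + 1 := ⟨n - 1, by omega⟩
          obtain ⟨y, hy1, hy2⟩ := exists_pred hT v (x : V) k x.2
          exact (htriv g x).1 hx (triv_of_reg hG₀ g x y hy1.symm (hg x (by rw [x.2]))
            (hg y (by omega)) hxs)
  -- the directed union
  let GB : ℕ → Subgroup G := fun n =>
    { carrier := {g | ∀ u ∈ Sing G₀ T g, T.dist v u ≤ n}
      one_mem' := by
        intro u hu
        rw [sing_one] at hu
        exact absurd hu (Set.notMem_empty u)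
      mul_mem' := by
        intro a b ha hb u hu
        by_contra h
        exact sing_mul hadj₀ a b u (fun h1 => h (hb u h1)) (fun h1 => h (by
          have := ha _ h1
          rwa [hdist] at this)) hu
      inv_mem' := by
        intro a ha u hu
        by_contra h
        exact sing_inv hadj a u (fun h1 => h (by
          have := ha _ h1
          rwa [hdist] at this)) hu }
  refine Pool.Agent.Y430.SS.t_union C hC.base G GB ?_ ?_ ?_
  · intro i j hij g hg u hu
    exact (hg u hu).trans hij
  · intro g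
    obtain ⟨n, hn⟩ := ((hsing g).image (fun u => T.dist v u)).bddAbove
    exact ⟨n, fun u hu => hn ⟨u, hu, rfl⟩⟩
  · intro n
    obtain ⟨Q, _, π, hQ', hπ⟩ := hQ (n + 1)
    refine hC.base.of_injective _ Q (π.comp (GB n).subtype) ?_ hQ'
    rw [injective_iff_map_eq_one]
    intro g hg
    apply Subtype.ext
    exact hfaith g (triv_of_ball hT hG₀ v n (g : G) ((hπ _).1 hg) g.2)

end tree

end Q27.LB
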