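import Pool.Agent.Q27.LB.Main

/-!
# Regular trees with legal colourings
-/

set_option autoImplicit false

namespace Q27.LB

open Pool.Agent.Y110.FJ
open Pool.Agent.Y462.SS (Closed Wr)
open Q30.FJ

/-- legal colourings: the colour does not depend on the direction, and every vertex has exactly one
neighbour along each colour -/
structure Legal {V Ω : Type} (T : SimpleGraph V) (κ : V → V → Ω) : Prop where
  symm : ∀ x y, κ x y = κ y x
  ex : ∀ (x : V) (a : Ω), ∃! y, T.Adj x y ∧ κ x y = a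

section col

variable {V Ω : Type} {T : SimpleGraph V} {κ : V → V → Ω}

theorem pinv_self {X : Type} (σ : Equiv.Perm X) (a : X) : σ⁻¹ (σ a) = a := σ.symm_apply_apply a

theorem self_pinv {X : Type} (σ : Equiv.Perm X) (a : X) : σ (σ⁻¹ a) = a := σ.apply_symm_apply a

/-- the neighbour along `a` -/
noncomputable def nbr (h : Legal T κ) (x : V) (a : Ω) : V := (h.ex x a).choose

theorem nbr_adj (h : Legal T κ) (x : V) (a : Ω) : T.Adj x (nbr h x a) :=
  (h.ex x a).choose_spec.1.1

theorem nbr_col (h : Legal T κ) (x : V) (a : Ω) : κ x (nbr h x a) = a :=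
  (h.ex x a).choose_spec.1.2

theorem nbr_eq (h : Legal T κ) {x y : V} {a : Ω} (h1 : T.Adj x y) (h2 : κ x y = a) :
    y = nbr h x a := (h.ex x a).choose_spec.2 y ⟨h1, h2⟩

/-- following colours -/
noncomputable def follow (h : Legal T κ) (σ : Ω → Ω) : ∀ {u y : V}, T.Walk u y → V → V
  | _, _, .nil, w => w
  | u, _, .cons (v := u') _ p, w => follow h σ p (nbr h w (σ (κ u u')))

theorem follow_concat (h : Legal T κ) (σ : Ω → Ω) {u y y' : V} (p : T.Walk u y)
    (hy : T.Adj y y') (w : V) :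
    follow h σ (p.concat hy) w = nbr h (follow h σ p w) (σ (κ y y')) := by
  induction p generalizing w with
  | nil => rfl
  | cons h' p ih =>
    rw [SimpleGraph.Walk.concat_cons]
    exact ih hy _

/-- maps with the same local permutation everywhere -/
def Cst (T : SimpleGraph V) (κ : V → V → Ω) (σ : Ω → Ω) (f : V → V) : Prop :=
  ∀ x y, T.Adj x y → T.Adj (f x) (f y) ∧ κ (f x) (f y) = σ (κ x y)

theorem exists_cst (hT : T.IsTree) (h : Legal T κ) (σ : Ω → Ω) (u w : V) :
    ∃ f : V → V, f u = w ∧ Cst T κ σ f := by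
  classical
  choose p hp hp' using hT.existsUnique_path u
  have hnil : p u = .nil := (hp' u .nil SimpleGraph.Walk.IsPath.nil).symm
  refine ⟨fun y => follow h σ (p y) w, ?_, ?_⟩
  · show follow h σ (p u) w = w
    rw [hnil]
    rfl
  · intro x y hxy
    by_cases hx : x ∈ (p y).support
    · have h1 := hT.isAcyclic.path_concat (hp x) (hp y) hxy hx
      have h2 : follow h σ (p y) w = nbr h (follow h σ (p x) w) (σ (κ x y)) := by
        rw [h1]
        exact follow_concat h σ (p x) hxy w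
      show T.Adj (follow h σ (p x) w) (follow h σ (p y) w) ∧
        κ (follow h σ (p x) w) (follow h σ (p y) w) = σ (κ x y)
      rw [h2]
      exact ⟨nbr_adj h _ _, nbr_col h _ _⟩
    · have hy := hT.isAcyclic.mem_support_of_ne_mem_support_of_adj_of_isPath (hp x) (hp y) hxy hx
      have h1 := hT.isAcyclic.path_concat (hp y) (hp x) hxy.symm hy
      have h2 : follow h σ (p x) w = nbr h (follow h σ (p y) w) (σ (κ y x)) := by
        rw [h1]
        exact follow_concat h σ (p y) hxy.symm w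
      show T.Adj (follow h σ (p x) w) (follow h σ (p y) w) ∧
        κ (follow h σ (p x) w) (follow h σ (p y) w) = σ (κ x y)
      rw [h2]
      exact ⟨(nbr_adj h _ _).symm, by rw [h.symm, nbr_col h, h.symm]⟩

theorem cst_unique (hT : T.IsTree) (h : Legal T κ) {σ : Ω → Ω} {f f' : V → V} (hf : Cst T κ σ f)
    (hf' : Cst T κ σ f') (u : V) (hu : f u = f' u) : f = f' := by
  funext y
  obtain ⟨p⟩ := hT.connected.preconnected u y
  induction p with
  | nil => exact hu
  | cons hxy p ih =>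
    refine ih ?_
    have h1 := hf _ _ hxy
    have h2 := hf' _ _ hxy
    rw [nbr_eq h h1.1 h1.2, nbr_eq h h2.1 h2.2, hu]

theorem cst_comp {σ τ : Ω → Ω} {f f' : V → V} (hf : Cst T κ σ f) (hf' : Cst T κ τ f') :
    Cst T κ (σ ∘ τ) (f ∘ f') := fun x y hxy =>
  ⟨(hf _ _ (hf' x y hxy).1).1, by
    show κ (f (f' x)) (f (f' y)) = σ (τ (κ x y))
    rw [(hf _ _ (hf' x y hxy).1).2, (hf' x y hxy).2]⟩

theorem cst_id : Cst T κ (id : Ω → Ω) (id : V → V) := fun _ _ h => ⟨h, rfl⟩

/-- the group of the automorphisms with constant local permutation in `F` -/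
def CG (h : Legal T κ) (F : Subgroup (Equiv.Perm Ω)) : Subgroup (Equiv.Perm V) where
  carrier := {g | ∃ σ ∈ F, Cst T κ (σ : Ω → Ω) (g : V → V)}
  one_mem' := ⟨1, F.one_mem, cst_id⟩
  mul_mem' := by
    rintro a b ⟨σ, h1, h2⟩ ⟨τ, h3, h4⟩
    refine ⟨σ * τ, F.mul_mem h1 h3, ?_⟩
    exact cst_comp (σ := σ) (τ := τ) (f := a) (f' := b) h2 h4
  inv_mem' := by
    rintro a ⟨σ, h1, h2⟩
    refine ⟨σ⁻¹, F.inv_mem h1, fun x y hxy => ?_⟩
    obtain ⟨z, hz⟩ : ∃ z, z = nbr h (a⁻¹ x) (σ⁻¹ (κ x y)) := ⟨_, rfl⟩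
    have h3 : T.Adj (a⁻¹ x) z := hz ▸ nbr_adj h _ _
    have h4 : κ (a⁻¹ x) z = σ⁻¹ (κ x y) := hz ▸ nbr_col h _ _
    have h5 := h2 _ _ h3
    rw [self_pinv, h4, self_pinv] at h5
    have h6 : a z = y := by rw [nbr_eq h h5.1 h5.2, ← nbr_eq h hxy rfl]
    have h7 : a⁻¹ y = z := by rw [← h6, pinv_self]
    exact ⟨h7 ▸ h3, by rw [h7, h4]⟩

theorem exists_CG (hT : T.IsTree) (h : Legal T κ) (F : Subgroup (Equiv.Perm Ω))
    (σ : Equiv.Perm Ω) (hσ : σ ∈ F) (u w : V) :
    ∃ g ∈ CG h F, g u = w ∧ Cst T κ (σ : Ω → Ω) (g : V → V) := by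
  obtain ⟨f, hf1, hf2⟩ := exists_cst hT h σ u w
  obtain ⟨f', hf1', hf2'⟩ := exists_cst hT h (σ⁻¹ : Equiv.Perm Ω) w u
  have h1 : f' ∘ f = id := by
    refine cst_unique hT h (σ := id) ?_ cst_id u ?_
    · have h2 := cst_comp hf2' hf2
      have h3 : ((σ⁻¹ : Equiv.Perm Ω) : Ω → Ω) ∘ (σ : Ω → Ω) = id := by
        funext a
        exact pinv_self σ a
      rwa [h3] at h2
    · show f' (f u) = u
      rw [hf1, hf1']
  have h2 : f ∘ f' = id := by
    refine cst_unique hT h (σ := id) ?_ cst_id w ?_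
    · have h2 := cst_comp hf2 hf2'
      have h3 : (σ : Ω → Ω) ∘ ((σ⁻¹ : Equiv.Perm Ω) : Ω → Ω) = id := by
        funext a
        exact self_pinv σ a
      rwa [h3] at h2
    · show f (f' w) = w
      rw [hf1', hf1]
  exact ⟨⟨f, f', fun x => congrFun h1 x, fun x => congrFun h2 x⟩, ⟨σ, hσ, hf2⟩, hf1, hf2⟩

variable {P : Type} [Group P] [MulAction P V]

/-- local permutations -/
def LocIn (κ : V → V → Ω) (T : SimpleGraph V) (p : P) (x : V) (F : Subgroup (Equiv.Perm Ω)) :
    Prop := ∃ σ ∈ F, ∀ y, T.Adj x y → κ (p • x) (p • y) = σ (κ x y)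

theorem loc_hom (h : Legal T κ) (F : Subgroup (Equiv.Perm Ω))
    (hadj : ∀ (p : P) (x y : V), T.Adj x y → T.Adj (p • x) (p • y))
    (u : V) (hP : ∀ p : P, LocIn κ T p u F) :
    ∃ φ : MulAction.stabilizer P u →* F,
      ∀ (p : MulAction.stabilizer P u) (y : V), T.Adj u y →
        κ u ((p : P) • y) = (φ p : Equiv.Perm Ω) (κ u y) := by
  classical
  have hst : ∀ p : MulAction.stabilizer P u, (p : P) • u = u := fun p => p.2
  choose s hs1 hs2 using hP
  have hs3 : ∀ (p : MulAction.stabilizer P u) (y : V), T.Adj u y →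
      κ u ((p : P) • y) = s p (κ u y) := by
    intro p y hy
    have h1 := hs2 p y hy
    rwa [hst] at h1
  refine ⟨⟨⟨fun p => ⟨s p, hs1 p⟩, ?_⟩, ?_⟩, hs3⟩
  · apply Subtype.ext
    apply Equiv.ext
    intro a
    have h1 := hs3 1 (nbr h u a) (nbr_adj h u a)
    rw [nbr_col h] at h1
    show s ((1 : MulAction.stabilizer P u) : P) a = a
    rw [← h1, Subgroup.coe_one, one_smul, nbr_col h]
  · intro p q
    apply Subtype.ext
    apply Equiv.ext
    intro a
    have h1 := hs3 (p * q) (nbr h u a) (nbr_adj h u a)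
    have h2 := hs3 q (nbr h u a) (nbr_adj h u a)
    have h3 := hs3 p ((q : P) • nbr h u a) (by
      have h4 := hadj q _ _ (nbr_adj h u a)
      rwa [hst] at h4)
    rw [nbr_col h] at h1 h2
    show s ((p * q : MulAction.stabilizer P u) : P) a = s p (s q a)
    rw [← h1, ← h2, ← h3, Subgroup.coe_mul, mul_smul]

theorem loc_ker (h : Legal T κ) (F : Subgroup (Equiv.Perm Ω))
    (hadj : ∀ (p : P) (x y : V), T.Adj x y → T.Adj (p • x) (p • y))
    (u : V) (φ : MulAction.stabilizer P u →* F)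
    (hφ : ∀ (p : MulAction.stabilizer P u) (y : V), T.Adj u y →
        κ u ((p : P) • y) = (φ p : Equiv.Perm Ω) (κ u y)) (p : MulAction.stabilizer P u) :
    φ p = 1 ↔ ∀ w, T.Adj u w → (p : P) • w = w := by
  have hst : (p : P) • u = u := p.2
  constructor
  · intro h1 w hw
    have h2 := hφ p w hw
    rw [h1] at h2
    have h3 := hadj p _ _ hw
    rw [hst] at h3
    rw [nbr_eq h h3 h2]
    exact (nbr_eq h hw rfl).symm
  · intro h1
    apply Subtype.ext
    apply Equiv.ext
    intro a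
    have h2 := hφ p (nbr h u a) (nbr_adj h u a)
    rw [h1 _ (nbr_adj h u a), nbr_col h] at h2
    exact h2.symm

/-- the singular vertices -/
theorem sing_sub (hT : T.IsTree) (h : Legal T κ) (F : Subgroup (Equiv.Perm Ω))
    (hadj : ∀ (p : P) (x y : V), T.Adj x y → T.Adj (p • x) (p • y)) (p : P) :
    Sing (CG h F) T p ⊆ {x | ¬ LocIn κ T p x F} := by
  intro x hx hx'
  obtain ⟨σ, h1, h2⟩ := hx'
  obtain ⟨g, hg1, hg2, hg3⟩ := exists_CG hT h F σ h1 x (p • x)
  refine hx ⟨⟨g, hg1⟩, hg2, fun w hw => ?_⟩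
  show g w = p • w
  have h3 := hg3 x w hw
  rw [hg2] at h3
  rw [nbr_eq h h3.1 h3.2]
  exact (nbr_eq h (hadj p x w hw) (h2 w hw)).symm

theorem CG_adj (h : Legal T κ) (F : Subgroup (Equiv.Perm Ω)) (g : CG h F) (v w : V)
    (hvw : T.Adj v w) : T.Adj (g • v) (g • w) := by
  obtain ⟨g, σ, hσ, hg⟩ := g
  exact (hg v w hvw).1

theorem CG_free (hT : T.IsTree) (h : Legal T κ) (F : Subgroup (Equiv.Perm Ω))
    (hF : ∀ σ ∈ F, ∀ a : Ω, σ a = a → σ = 1) (g : CG h F) (u w : V) (huw : T.Adj u w)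
    (hu : g • u = u) (hw : g • w = w) (x : V) : g • x = x := by
  obtain ⟨g, σ, hσ, hg⟩ := g
  have hu' : g u = u := hu
  have hw' : g w = w := hw
  have h1 := (hg u w huw).2
  rw [hu', hw'] at h1
  have h2 := hF σ hσ _ h1.symm
  rw [h2] at hg
  have h3 := cst_unique hT h (σ := id) (f := g) (f' := id) hg cst_id u hu'
  exact congrFun h3 x

/-- **vertex stabilizers of the groups with almost prescribed local action** -/
theorem col_vertex {C : ∀ (G : Type) [Group G], Prop} (hC : ClosedE C) (hT : T.IsTree)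
    (h : Legal T κ) (F F' : Subgroup (Equiv.Perm Ω)) (hF : ∀ σ ∈ F, ∀ a : Ω, σ a = a → σ = 1)
    (hF' : C F') (hadj : ∀ (p : P) (x y : V), T.Adj x y → T.Adj (p • x) (p • y))
    (hfaith : ∀ p : P, (∀ x : V, p • x = x) → p = 1) (hP' : ∀ (p : P) (x : V), LocIn κ T p x F')
    (hP : ∀ p : P, {x | ¬ LocIn κ T p x F}.Finite) (v : V) : C (MulAction.stabilizer P v) := by
  refine vst_mem (G₀ := CG h F) hC hT hadj (CG_adj h F) (CG_free hT h F hF) hfaith
    (fun p => (hP p).subset (sing_sub hT h F hadj p)) (fun u => ?_) v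
  obtain ⟨φ, hφ⟩ := loc_hom h F' hadj u (fun p => hP' p u)
  exact ⟨F', inferInstance, φ, hF', loc_ker h F' hadj u φ hφ⟩

/-- **groups with almost prescribed local action** -/
theorem col_main {C : ∀ (G : Type) [Group G], Prop} (hC : Q182.Cyl.ClosedA C) (hT : T.IsTree)
    (h : Legal T κ) (F F' : Subgroup (Equiv.Perm Ω)) (hF : ∀ σ ∈ F, ∀ a : Ω, σ a = a → σ = 1)
    (hF' : C F')
    (hlf : ∀ (a : Ω) (S : Finset (Equiv.Perm Ω)), (∀ σ ∈ S, σ ∈ F' ∧ σ a = a) →
      Finite (Subgroup.closure (S : Set (Equiv.Perm Ω))))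
    (hadj : ∀ (p : P) (x y : V), T.Adj x y → T.Adj (p • x) (p • y))
    (hfaith : ∀ p : P, (∀ x : V, p • x = x) → p = 1) (hP' : ∀ (p : P) (x : V), LocIn κ T p x F')
    (hP : ∀ p : P, {x | ¬ LocIn κ T p x F}.Finite) : C P := by
  classical
  refine main (G₀ := CG h F) hC hT hadj (CG_adj h F) (CG_free hT h F hF) hfaith
    (fun p => (hP p).subset (sing_sub hT h F hadj p)) (fun u => ?_) ?_
  · obtain ⟨φ, hφ⟩ := loc_hom h F' hadj u (fun p => hP' p u)
    exact ⟨F', inferInstance, φ, hF', loc_ker h F' hadj u φ hφ⟩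
  · intro u w huw E hE hEuw
    obtain ⟨φ, hφ⟩ := loc_hom h F' hadj u (fun p => hP' p u)
    have hle : E ≤ MulAction.stabilizer P u := fun e he => (hEuw e he).1
    let ψ : E →* Equiv.Perm Ω := (F'.subtype.comp φ).comp (Subgroup.inclusion hle)
    have hfin : Finite ψ.range := by
      obtain ⟨S, hS⟩ := hE
      have h1 : ∀ s ∈ S, s ∈ E := fun s hs => by
        rw [← hS]
        exact Subgroup.subset_closure hs
      let S' : Finset (Equiv.Perm Ω) := S.attach.image fun s => ψ ⟨s.1, h1 s.1 s.2⟩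
      have h2 : ∀ σ ∈ S', σ ∈ F' ∧ σ (κ u w) = κ u w := by
        intro σ hσ
        obtain ⟨s, -, rfl⟩ := Finset.mem_image.1 hσ
        refine ⟨(φ (Subgroup.inclusion hle ⟨s.1, h1 s.1 s.2⟩)).2, ?_⟩
        have h3 := hφ (Subgroup.inclusion hle ⟨s.1, h1 s.1 s.2⟩) w huw
        have h4 : ((Subgroup.inclusion hle ⟨s.1, h1 s.1 s.2⟩ : MulAction.stabilizer P u) : P) • w
            = w := (hEuw s.1 (h1 s.1 s.2)).2
        rw [h4] at h3
        exact h3.symm
      have h3 := hlf (κ u w) S' h2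
      have h4 : ψ.range ≤ Subgroup.closure (S' : Set (Equiv.Perm Ω)) := by
        rintro _ ⟨⟨e, he⟩, rfl⟩
        have he' : e ∈ Subgroup.closure (S : Set P) := hS ▸ he
        have key : ∀ e ∈ Subgroup.closure (S : Set P), ∀ he : e ∈ E,
            ψ ⟨e, he⟩ ∈ Subgroup.closure (S' : Set (Equiv.Perm Ω)) := by
          intro e he
          induction he using Subgroup.closure_induction with
          | mem s hs =>
            intro he
            refine Subgroup.subset_closure ?_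
            exact Finset.mem_coe.2 (Finset.mem_image.2 ⟨⟨s, hs⟩, Finset.mem_attach _ _, rfl⟩)
          | one =>
            intro he
            have h5 : ψ ⟨1, he⟩ = 1 := map_one ψ
            rw [h5]
            exact Subgroup.one_mem _
          | mul a b ha hb iha ihb =>
            intro he
            have haE : a ∈ E := hS ▸ ha
            have hbE : b ∈ E := hS ▸ hb
            have h5 : ψ ⟨a * b, he⟩ = ψ ⟨a, haE⟩ * ψ ⟨b, hbE⟩ := map_mul ψ ⟨a, haE⟩ ⟨b, hbE⟩
            rw [h5]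
            exact Subgroup.mul_mem _ (iha haE) (ihb hbE)
          | inv a ha iha =>
            intro he
            have haE : a ∈ E := hS ▸ ha
            have h5 : ψ ⟨a⁻¹, he⟩ = (ψ ⟨a, haE⟩)⁻¹ := map_inv ψ ⟨a, haE⟩
            rw [h5]
            exact Subgroup.inv_mem _ (iha haE)
        exact key e he' he
      exact Finite.of_injective _ (Subgroup.inclusion_injective h4)
    have h1 : (KSt P T u).subgroupOf E = ψ.ker := by
      ext ⟨e, he⟩
      rw [Subgroup.mem_subgroupOf, MonoidHom.mem_ker]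
      have h2 := loc_ker h F' hadj u φ hφ (Subgroup.inclusion hle ⟨e, he⟩)
      constructor
      · rintro ⟨h3, h4⟩
        have h5 := h2.2 h4
        show F'.subtype (φ (Subgroup.inclusion hle ⟨e, he⟩)) = 1
        rw [h5]
        rfl
      · intro h3
        have h5 : φ (Subgroup.inclusion hle ⟨e, he⟩) = 1 := Subtype.ext h3
        exact ⟨(hEuw e he).1, h2.1 h5⟩
    show ((KSt P T u).subgroupOf E).index ≠ 0
    rw [h1, Subgroup.index_ker]
    exact Nat.card_pos.ne'

end col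

end Q27.LB
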