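import Pool.Agent.Q27.LB.Base
import Pool.Agent.Q182.LuMain

/-!
# Almost prescribed local actions: edge stabilizers
-/

set_option autoImplicit false

namespace Q27.LB

open Pool.Agent.Y110.FJ
open Pool.Agent.Y462.SS (Closed Wr)
open Q30.FJ

section tree

variable {V : Type} {T : SimpleGraph V} {G : Type} [Group G] [MulAction G V]
  {G₀ : Type} [Group G₀] [MulAction G₀ V]

/-- the elements which are trivial on the star of `u` -/
def KSt (G : Type) {V : Type} [Group G] [MulAction G V] (T : SimpleGraph V) (u : V) :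
    Subgroup G where
  carrier := {g | StTriv T g u}
  one_mem' := ⟨one_smul G u, fun x _ => one_smul G x⟩
  mul_mem' {a b} ha hb := ⟨by rw [mul_smul, hb.1, ha.1], fun x hx => by
    rw [mul_smul, hb.2 x hx, ha.2 x hx]⟩
  inv_mem' {a} ha := ⟨by rw [inv_smul_eq_iff, ha.1], fun x hx => by
    rw [inv_smul_eq_iff, ha.2 x hx]⟩

/-- **finitely generated groups fixing an edge are finite** -/
theorem edge_fin (hT : T.IsTree)
    (hadj : ∀ (g : G) (v w : V), T.Adj v w → T.Adj (g • v) (g • w))
    (hadj₀ : ∀ (g : G₀) (v w : V), T.Adj v w → T.Adj (g • v) (g • w))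
    (hG₀ : ∀ (g : G₀) (u w : V), T.Adj u w → g • u = u → g • w = w → ∀ x : V, g • x = x)
    (hfaith : ∀ g : G, (∀ x : V, g • x = x) → g = 1) (hsing : ∀ g : G, (Sing G₀ T g).Finite)
    (hlf : ∀ u w : V, T.Adj u w → ∀ F : Subgroup G, F.FG → (∀ f ∈ F, f • u = u ∧ f • w = w) →
      (KSt G T u).relIndex F ≠ 0)
    (v w₀ : V) (hvw : T.Adj v w₀) (hv : ∀ g : G, g • v = v) (hw : ∀ g : G, g • w₀ = w₀)
    [hfg : Group.FG G] : Finite G := by
  classical
  have hidx : ∀ m, (NB G T v m).index ≠ 0 := by
    intro m
    induction m with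
    | zero =>
      have h1 : NB G T v 0 = ⊤ := by
        rw [eq_top_iff]
        intro g _ x hx
        have h1 : v = x := (hT.connected.preconnected v x).dist_eq_zero_iff.1 (Nat.le_zero.1 hx)
        rw [← h1, hv]
      rw [h1, Subgroup.index_top]
      exact one_ne_zero
    | succ m ih =>
      have hfi : (NB G T v m).FiniteIndex := ⟨ih⟩
      have hfgM : (NB G T v m).FG := by
        have h1 : Group.FG ↥(NB G T v m) := inferInstance
        rwa [Group.fg_iff_subgroup_fg] at h1
      obtain ⟨S, hS⟩ := hfgM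
      have hSm : ∀ s ∈ S, s ∈ NB G T v m := fun s hs => by
        rw [← hS]
        exact Subgroup.subset_closure hs
      obtain ⟨R, hR⟩ : ∃ R : Set V, R = ⋃ s ∈ S, {y | T.dist v y = m ∧ ¬ StTriv T s y} := ⟨_, rfl⟩
      have hRfin : R.Finite := by
        rw [hR]
        refine S.finite_toSet.biUnion fun s hs => ?_
        rcases Nat.eq_zero_or_pos m with hm | hm
        · refine (Set.finite_singleton v).subset ?_
          rintro y ⟨hy, -⟩
          exact ((hT.connected.preconnected v y).dist_eq_zero_iff.1 (by omega)).symm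
        · refine (hsing s).subset ?_
          rintro y ⟨hy, hy1⟩
          by_contra hys
          obtain ⟨k, rfl⟩ : ∃ k, m = k + 1 := ⟨m - 1, by omega⟩
          obtain ⟨z, hz1, hz2⟩ := exists_pred hT v y k hy
          exact hy1 (triv_of_reg hG₀ s y z hz1.symm (hSm s hs y (by omega))
            (hSm s hs z (by omega)) hys)
      have hRm : ∀ y ∈ R, T.dist v y = m := by
        intro y hy
        rw [hR] at hy
        obtain ⟨s, -, hy, -⟩ := Set.mem_iUnion₂.1 hy
        exact hy
      have hRi : ∀ y : R, (KSt G T (y : V)).relIndex (NB G T v m) ≠ 0 := by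
        rintro ⟨y, hy⟩
        have hym := hRm y hy
        rcases Nat.eq_zero_or_pos m with hm | hm
        · have h1 : v = y := (hT.connected.preconnected v y).dist_eq_zero_iff.1 (by omega)
          refine hlf y w₀ (h1 ▸ hvw) _ ⟨S, hS⟩ fun f _ => ⟨?_, hw f⟩
          show f • y = y
          rw [← h1, hv]
        · obtain ⟨k, rfl⟩ : ∃ k, m = k + 1 := ⟨m - 1, by omega⟩
          obtain ⟨z, hz1, hz2⟩ := exists_pred hT v y k hym
          exact hlf y z hz1.symm _ ⟨S, hS⟩ fun f hf => ⟨hf y (by omega), hf z (by omega)⟩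
      have : Finite R := hRfin.to_subtype
      have h1 := Subgroup.relIndex_iInf_ne_zero hRi
      have h2 : (⨅ y : R, KSt G T (y : V)) ⊓ NB G T v m ≤ NB G T v (m + 1) := by
        rintro g ⟨hg1, hg2⟩ x hx
        by_cases hx1 : T.dist v x ≤ m
        · exact hg2 x hx1
        · obtain ⟨y, hy1, hy2⟩ := exists_pred hT v x m (by omega)
          by_cases hyR : y ∈ R
          · have h3 : g ∈ KSt G T y := (Subgroup.mem_iInf.1 hg1) ⟨y, hyR⟩
            exact h3.2 x hy1
          · have h3 : NB G T v m ≤ KSt G T y := by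
              rw [← hS, Subgroup.closure_le]
              intro s hs
              by_contra h4
              apply hyR
              rw [hR]
              exact Set.mem_iUnion₂.2 ⟨s, hs, hy2, h4⟩
            exact (h3 hg2).2 x hy1
      have h3 : (NB G T v (m + 1)).relIndex (NB G T v m) ≠ 0 := by
        rw [← Subgroup.inf_relIndex_right] at h1
        intro h4
        have h5 := Subgroup.relIndex_dvd_of_le_left (NB G T v m) h2
        rw [h4] at h5
        exact h1 (Nat.eq_zero_of_zero_dvd h5)
      rw [← Subgroup.relIndex_mul_index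
        (show NB G T v (m + 1) ≤ NB G T v m from fun g hg x hx => hg x (by omega))]
      exact mul_ne_zero h3 ih
  obtain ⟨S, hS⟩ := hfg.out
  have hbd : ((fun u => T.dist v u) '' (⋃ s ∈ (S : Set G), Sing G₀ T s)).Finite :=
    (S.finite_toSet.biUnion fun s _ => hsing s).image _
  obtain ⟨n, hn⟩ := hbd.bddAbove
  have hdist : ∀ (g : G) (x : V), T.dist v (g • x) = T.dist v x := by
    intro g x
    have h2 := dist_smul hT hadj g v x
    rwa [hv] at h2
  have hcl : ∀ g : G, ∀ u ∈ Sing G₀ T g, T.dist v u ≤ n := by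
    intro g
    have hg : g ∈ Subgroup.closure (S : Set G) := by
      rw [hS]
      exact Subgroup.mem_top g
    induction hg using Subgroup.closure_induction with
    | mem s hs => exact fun u hu => hn ⟨u, Set.mem_iUnion₂.2 ⟨s, hs, hu⟩, rfl⟩
    | one =>
      intro u hu
      rw [sing_one] at hu
      exact absurd hu (Set.notMem_empty u)
    | mul a b _ _ ha hb =>
      intro u hu
      by_contra h
      exact sing_mul hadj₀ a b u (fun h1 => h (hb u h1)) (fun h1 => h (by
        have := ha _ h1
        rwa [hdist] at this)) hu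
    | inv a _ ha =>
      intro u hu
      by_contra h
      exact sing_inv hadj a u (fun h1 => h (by
        have := ha _ h1
        rwa [hdist] at this)) hu
  have hbot : NB G T v (n + 1) = ⊥ := by
    rw [eq_bot_iff]
    intro g hg
    rw [Subgroup.mem_bot]
    exact hfaith g (triv_of_ball hT hG₀ v n g hg (hcl g))
  have h1 := hidx (n + 1)
  rw [hbot, Subgroup.index_bot] at h1
  exact Nat.finite_of_card_ne_zero h1

/-- actions without inversions -/
theorem noinv {C : ∀ (G : Type) [Group G], Prop} (hC : Q182.Cyl.ClosedA C) (hT : T.IsTree)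
    (hadj : ∀ (g : G) (v w : V), T.Adj v w → T.Adj (g • v) (g • w))
    (hinv : ∀ (g : G) (v w : V), T.Adj v w → ¬ (g • v = w ∧ g • w = v))
    (hadj₀ : ∀ (g : G₀) (v w : V), T.Adj v w → T.Adj (g • v) (g • w))
    (hG₀ : ∀ (g : G₀) (u w : V), T.Adj u w → g • u = u → g • w = w → ∀ x : V, g • x = x)
    (hfaith : ∀ g : G, (∀ x : V, g • x = x) → g = 1) (hsing : ∀ g : G, (Sing G₀ T g).Finite)
    (hst : ∀ v : V, C (MulAction.stabilizer G v))
    (hlf : ∀ u w : V, T.Adj u w → ∀ F : Subgroup G, F.FG → (∀ f ∈ F, f • u = u ∧ f • w = w) →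
      (KSt G T u).relIndex F ≠ 0) : C G := by
  refine Q182.Lu.main hC ⟨hT, hadj, hinv⟩ (fun v w h E hE1 hE2 => ?_) hst
  have hfg : Group.FG E := by
    rw [Group.fg_iff_subgroup_fg]
    exact hE1
  have hE2' : ∀ e ∈ E, e • v = v ∧ e • w = w := fun e he => hE2 he
  have hfinE : Finite E := by
    refine edge_fin (G := E) (G₀ := G₀) hT (fun g v w h => hadj g v w h) hadj₀ hG₀
      (fun g hg => Subtype.ext (hfaith g hg)) (fun g => hsing g) ?_ v w h
      (fun g => (hE2' g g.2).1) (fun g => (hE2' g g.2).2)
    intro u x hux F hF hFux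
    have hF' : (F.map E.subtype).FG := by
      obtain ⟨S, hS⟩ := hF
      rw [Subgroup.fg_iff]
      refine ⟨E.subtype '' (S : Set E), ?_, S.finite_toSet.image _⟩
      rw [← MonoidHom.map_closure, hS]
    have h1 := hlf u x hux (F.map E.subtype) hF' (by
      rintro _ ⟨f, hf, rfl⟩
      exact hFux f hf)
    have h2 : (KSt G T u).comap E.subtype = KSt E T u := rfl
    rw [← h2, Subgroup.relIndex_comap]
    exact h1
  right
  exact ⟨Multiplicative ℤ, inferInstance, 1, hC.base.base.int,
    (Set.toFinite (E : Set G)).subset fun x hx => hx.1⟩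

end tree

end Q27.LB
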