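import Pool.Agent.Q27.LB.Edge

/-!
# Almost prescribed local actions: the theorems
-/

set_option autoImplicit false

namespace Q27.LB

open Pool.Agent.Y110.FJ
open Pool.Agent.Y462.SS (Closed Wr)
open Q30.FJ

section tree

variable {V : Type} {T : SimpleGraph V} {G : Type} [Group G] [MulAction G V]
  {G₀ : Type} [Group G₀] [MulAction G₀ V]

/-- **vertex stabilizers** -/
theorem vst_mem {C : ∀ (G : Type) [Group G], Prop} (hC : ClosedE C) (hT : T.IsTree)
    (hadj : ∀ (g : G) (v w : V), T.Adj v w → T.Adj (g • v) (g • w))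
    (hadj₀ : ∀ (g : G₀) (v w : V), T.Adj v w → T.Adj (g • v) (g • w))
    (hG₀ : ∀ (g : G₀) (u w : V), T.Adj u w → g • u = u → g • w = w → ∀ x : V, g • x = x)
    (hfaith : ∀ g : G, (∀ x : V, g • x = x) → g = 1) (hsing : ∀ g : G, (Sing G₀ T g).Finite)
    (hloc : ∀ u : V, ∃ (Q : Type) (_ : Group Q) (φ : MulAction.stabilizer G u →* Q), C Q ∧
      ∀ p : MulAction.stabilizer G u, φ p = 1 ↔ ∀ w, T.Adj u w → (p : G) • w = w)
    (v : V) : C (MulAction.stabilizer G v) := by
  refine fix_mem (G := MulAction.stabilizer G v) (G₀ := G₀) hC hT (fun g a b h => hadj g a b h)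
    hadj₀ hG₀ (fun g hg => Subtype.ext (hfaith g hg)) (fun g => hsing g) ?_ v (fun g => g.2)
  intro u
  obtain ⟨Q, _, φ, hQ, hφ⟩ := hloc u
  let ι : MulAction.stabilizer (MulAction.stabilizer G v) u →* MulAction.stabilizer G u :=
    { toFun := fun p => ⟨p.1.1, p.2⟩
      map_one' := rfl
      map_mul' := fun _ _ => rfl }
  exact ⟨Q, inferInstance, φ.comp ι, hQ, fun p => hφ (ι p)⟩

/-- groups acting on trees have subgroups of index at most two without inversions -/
theorem parity (hT : T.IsTree)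
    (hadj : ∀ (g : G) (v w : V), T.Adj v w → T.Adj (g • v) (g • w)) :
    ∃ H : Subgroup G, H.index ≠ 0 ∧ ∀ g ∈ H, ∀ v w : V, T.Adj v w →
      ¬ (g • v = w ∧ g • w = v) := by
  classical
  obtain ⟨c⟩ := hT.colorable_two
  have fin2 : ∀ a b a' b' : Fin 2, a ≠ b → a' ≠ b' → (a' = a ↔ b' = b) := by decide
  have fin2' : ∀ a b d : Fin 2, a ≠ b → b ≠ d → a = d := by decide
  have key : ∀ (g : G) (v w : V), c (g • v) = c v ↔ c (g • w) = c w := by
    intro g v w
    obtain ⟨p⟩ := hT.connected.preconnected v w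
    induction p with
    | nil => rfl
    | cons h p ih => exact (fin2 _ _ _ _ (c.valid h) (c.valid (hadj g _ _ h))).trans ih
  let H : Subgroup G :=
    { carrier := {g | ∀ v, c (g • v) = c v}
      one_mem' := fun v => by rw [one_smul]
      mul_mem' := fun {a b} ha hb v => by rw [mul_smul, ha, hb]
      inv_mem' := fun {a} ha v => by
        have h1 := ha (a⁻¹ • v)
        rw [smul_inv_smul] at h1
        exact h1.symm }
  have hne : ∀ a, a ∉ H → ∀ v, c (a • v) ≠ c v := fun a ha v hv => ha fun w => (key a v w).1 hv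
  refine ⟨H, ?_, ?_⟩
  · by_cases h : ∃ a, a ∉ H
    · obtain ⟨a, ha⟩ := h
      have h2 : H.index = 2 := by
        rw [Subgroup.index_eq_two_iff_exists_notMem_and]
        refine ⟨a, ha, fun b => ?_⟩
        by_cases hb : b ∈ H
        · exact Or.inr hb
        · left
          intro v
          rw [mul_smul]
          exact fin2' _ _ _ (hne b hb (a • v)) (hne a ha v)
      rw [h2]
      exact two_ne_zero
    · have h1 : H = ⊤ := by
        rw [eq_top_iff]
        intro a _
        by_contra ha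
        exact h ⟨a, ha⟩
      rw [h1, Subgroup.index_top]
      exact one_ne_zero
  · rintro g hg v w h ⟨h1, h2⟩
    have h3 := hg v
    rw [h1] at h3
    exact c.valid h h3.symm

/-- **almost prescribed local actions** -/
theorem main {C : ∀ (G : Type) [Group G], Prop} (hC : Q182.Cyl.ClosedA C) (hT : T.IsTree)
    (hadj : ∀ (g : G) (v w : V), T.Adj v w → T.Adj (g • v) (g • w))
    (hadj₀ : ∀ (g : G₀) (v w : V), T.Adj v w → T.Adj (g • v) (g • w))
    (hG₀ : ∀ (g : G₀) (u w : V), T.Adj u w → g • u = u → g • w = w → ∀ x : V, g • x = x)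
    (hfaith : ∀ g : G, (∀ x : V, g • x = x) → g = 1) (hsing : ∀ g : G, (Sing G₀ T g).Finite)
    (hloc : ∀ u : V, ∃ (Q : Type) (_ : Group Q) (φ : MulAction.stabilizer G u →* Q), C Q ∧
      ∀ p : MulAction.stabilizer G u, φ p = 1 ↔ ∀ w, T.Adj u w → (p : G) • w = w)
    (hlf : ∀ u w : V, T.Adj u w → ∀ F : Subgroup G, F.FG → (∀ f ∈ F, f • u = u ∧ f • w = w) →
      (KSt G T u).relIndex F ≠ 0) : C G := by
  obtain ⟨H, hH1, hH2⟩ := parity (G := G) hT hadj
  refine hC.base.base.finiteIndex G H ⟨hH1⟩ ?_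
  refine noinv (G := H) (G₀ := G₀) hC hT (fun g v w h => hadj g v w h)
    (fun g v w h => hH2 g g.2 v w h) hadj₀ hG₀ (fun g hg => Subtype.ext (hfaith g hg))
    (fun g => hsing g) (fun v => ?_) (fun u w h F hF hFu => ?_)
  · refine vst_mem (G := H) (G₀ := G₀) hC.base hT (fun g v w h => hadj g v w h) hadj₀ hG₀
      (fun g hg => Subtype.ext (hfaith g hg)) (fun g => hsing g) ?_ v
    intro u
    obtain ⟨Q, _, φ, hQ, hφ⟩ := hloc u
    let ι : MulAction.stabilizer H u →* MulAction.stabilizer G u :=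
      { toFun := fun p => ⟨p.1.1, p.2⟩
        map_one' := rfl
        map_mul' := fun _ _ => rfl }
    exact ⟨Q, inferInstance, φ.comp ι, hQ, fun p => hφ (ι p)⟩
  · have hF' : (F.map H.subtype).FG := by
      obtain ⟨S, hS⟩ := hF
      rw [Subgroup.fg_iff]
      refine ⟨H.subtype '' (S : Set H), ?_, S.finite_toSet.image _⟩
      rw [← MonoidHom.map_closure, hS]
    have h1 := hlf u w h (F.map H.subtype) hF' (by
      rintro _ ⟨f, hf, rfl⟩
      exact hFu f hf)
    have h2 : (KSt G T u).comap H.subtype = KSt H T u := rfl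
    rw [← h2, Subgroup.relIndex_comap]
    exact h1

end tree

end Q27.LB
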